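import Pool.Agent.H31C.Stubs
import Pool.Agent.H757R2.CardySD

/-!
All widths: the crossing event of the slit strip `-a ≤ u - v ≤ b+1` with the slit between the columns
`0` and `1`, from height `0` upwards, for arbitrary `a, b` (helper863, room CARDY).
It is increasing in `a` and decreasing in `b`, and for odd `a` it has the probability of `Cross a b`.
-/

namespace Pool.Agent.H863R4

open Pool.Agent.H988R2.Perc Pool.Agent.H31C Finset Filter Topology MeasureTheory

/-- open edges of the strip `-a ≤ u - v ≤ b+1`, without the edges between the columns `0` and `1`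
(column = `u - v`) both ends of which satisfy `u + v ≥ 0` -/
def SAdj (a b : ℕ) (ω : Conf) (x y : ℤ × ℤ) : Prop :=
  OpenAdj ω x y ∧ -(a:ℤ) ≤ x.1 - x.2 ∧ x.1 - x.2 ≤ b + 1 ∧ -(a:ℤ) ≤ y.1 - y.2 ∧ y.1 - y.2 ≤ b + 1 ∧
    ¬ (0 ≤ x.1 + x.2 ∧ 0 ≤ y.1 + y.2 ∧
      ((x.1 - x.2 ≤ 0 ∧ 0 < y.1 - y.2) ∨ (y.1 - y.2 ≤ 0 ∧ 0 < x.1 - x.2)))

/-- the left bank `u = v ≥ 0` of the slit is joined, inside the slit strip, to the right side
`u - v = b+1` -/
def SCross (a b : ℕ) : Set Conf :=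
  {ω | ∃ x y : ℤ × ℤ, x.1 - x.2 = 0 ∧ 0 ≤ x.1 + x.2 ∧ y.1 - y.2 = b + 1 ∧
    Relation.ReflTransGen (SAdj a b ω) x y}

theorem scross_mono_left {a a' : ℕ} (h : a ≤ a') (b : ℕ) : SCross a b ⊆ SCross a' b := by
  rintro ω ⟨x, y, h1, h2, h3, h4⟩
  refine ⟨x, y, h1, h2, h3, h4.lift id ?_⟩
  rintro p q ⟨e1, e2, e3, e4, e5, e6⟩
  have : (a:ℤ) ≤ a' := by exact_mod_cast h
  show SAdj a' b ω p q
  exact ⟨e1, by linarith, e3, by linarith, e5, e6⟩

theorem col_step {ω : Conf} {x y : ℤ × ℤ} (h : OpenAdj ω x y) : y.1 - y.2 ≤ x.1 - x.2 + 1 := by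
  rcases h with ⟨h, _⟩ | ⟨h, _⟩ | ⟨h, _⟩ | ⟨h, _⟩ <;> rw [h] <;> simp <;> omega

theorem scross_succ_right (a b : ℕ) : SCross a (b + 1) ⊆ SCross a b := by
  rintro ω ⟨x, y, h1, h2, h3, h4⟩
  have key : ∀ z, Relation.ReflTransGen (SAdj a (b+1) ω) x z →
      (Relation.ReflTransGen (SAdj a b ω) x z ∧ z.1 - z.2 ≤ b + 1) ∨
        ∃ y : ℤ × ℤ, y.1 - y.2 = b + 1 ∧ Relation.ReflTransGen (SAdj a b ω) x y := by
    intro z hz
    induction hz with
    | refl => left; exact ⟨Relation.ReflTransGen.refl, by omega⟩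
    | tail hpq hqr ih =>
      rename_i q r
      rcases ih with ⟨i1, i2⟩ | i3
      · by_cases hq : q.1 - q.2 = b + 1
        · right; exact ⟨q, hq, i1⟩
        · left
          obtain ⟨e1, e2, e3, e4, e5, e6⟩ := hqr
          have hs := col_step e1
          have hr : r.1 - r.2 ≤ b + 1 := by omega
          exact ⟨i1.tail ⟨e1, e2, i2, e4, hr, e6⟩, hr⟩
      · right; exact i3
  rcases key y h4 with ⟨_, h5⟩ | ⟨y', h5, h6⟩
  · exfalso
    push_cast at h3
    omega
  · exact ⟨x, y', h1, h2, h5, h6⟩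

theorem scross_anti_right (a : ℕ) {b b' : ℕ} (h : b ≤ b') : SCross a b' ⊆ SCross a b := by
  induction b', h using Nat.le_induction with
  | base => exact subset_rfl
  | succ n hn ih => exact (scross_succ_right a n).trans ih

theorem cross_mono_left {a a' : ℕ} (h : a ≤ a') (b : ℕ) :
    perc.real (SCross a b) ≤ perc.real (SCross a' b) :=
  measureReal_mono (scross_mono_left h b)

theorem cross_anti_right (a : ℕ) {b b' : ℕ} (h : b ≤ b') :
    perc.real (SCross a b') ≤ perc.real (SCross a b) :=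
  measureReal_mono (scross_anti_right a h)

/-! ## translation -/

/-- translation of edges -/
def sh (p r : ℤ) : Edge ≃ Edge where
  toFun e := (e.1 + p, e.2.1 + r, e.2.2)
  invFun e := (e.1 - p, e.2.1 - r, e.2.2)
  left_inv e := by simp
  right_inv e := by simp

theorem perc_map (e : Edge ≃ Edge) (S : Set Conf) :
    perc.real ((fun ω : Conf => fun i => ω (e.symm i)) ⁻¹' S) = perc.real S := by
  have hmap : perc.map (MeasurableEquiv.piCongrLeft (fun _ : Edge => Bool) e) = perc := by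
    unfold perc
    exact Measure.infinitePi_map_piCongrLeft (μ := fun _ : Edge => coin) e
  have hfun : (fun ω : Conf => fun i => ω (e.symm i)) =
      (MeasurableEquiv.piCongrLeft (fun _ : Edge => Bool) e) := by
    funext ω i
    obtain ⟨j, rfl⟩ := e.surjective i
    rw [MeasurableEquiv.coe_piCongrLeft, Equiv.piCongrLeft_apply_apply, e.symm_apply_apply]
  rw [hfun, measureReal_def, measureReal_def, ← MeasurableEquiv.map_apply, hmap]

theorem openAdj_sh (p r : ℤ) (ω : Conf) (x y : ℤ × ℤ) :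
    OpenAdj (fun i => ω ((sh p r).symm i)) (x.1 + p, x.2 + r) (y.1 + p, y.2 + r) ↔ OpenAdj ω x y := by
  obtain ⟨x1, x2⟩ := x
  obtain ⟨y1, y2⟩ := y
  unfold OpenAdj sh
  simp only [Equiv.coe_fn_symm_mk, Prod.mk.injEq, add_sub_cancel_right]
  have e1 : (y1 + p = x1 + p + 1 ∧ y2 + r = x2 + r) ↔ (y1 = x1 + 1 ∧ y2 = x2) := by omega
  have e2 : (x1 + p = y1 + p + 1 ∧ x2 + r = y2 + r) ↔ (x1 = y1 + 1 ∧ x2 = y2) := by omega
  have e3 : (y1 + p = x1 + p ∧ y2 + r = x2 + r + 1) ↔ (y1 = x1 ∧ y2 = x2 + 1) := by omega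
  have e4 : (x1 + p = y1 + p ∧ x2 + r = y2 + r + 1) ↔ (x1 = y1 ∧ x2 = y2 + 1) := by omega
  rw [e1, e2, e3, e4]

theorem scross_eq {a : ℕ} (ha : Odd a) (b : ℕ) : perc.real (SCross a b) = perc.real (Cross a b) := by
  obtain ⟨k, hk⟩ := ha
  have hkz : (a:ℤ) = 2 * k + 1 := by exact_mod_cast hk
  rw [← perc_map (sh (k + 1) (-k)) (Cross a b)]
  congr 1
  have hstep : ∀ (ω : Conf) (x y : ℤ × ℤ), SAdj a b ω x y ↔
      SlitAdj a (a+b+1) (fun i => ω ((sh (k+1) (-k)).symm i)) (x.1 + (k+1), x.2 + (-k))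
        (y.1 + (k+1), y.2 + (-k)) := by
    intro ω x y
    unfold SAdj SlitAdj
    rw [openAdj_sh]
    simp only
    push_cast
    constructor
    · rintro ⟨e1, e2, e3, e4, e5, e6⟩
      exact ⟨e1, by omega, by omega, by omega, by omega, by omega⟩
    · rintro ⟨e1, e2, e3, e4, e5, e6⟩
      exact ⟨e1, by omega, by omega, by omega, by omega, by omega⟩
  ext ω
  constructor
  · rintro ⟨x, y, h1, h2, h3, h4⟩
    refine ⟨(x.1 + (k+1), x.2 + (-k)), (y.1 + (k+1), y.2 + (-k)), ?_, ?_, ?_, ?_⟩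
    · show x.1 + (k+1) - (x.2 + (-k)) = (a:ℤ); omega
    · show 1 ≤ x.1 + (k+1) + (x.2 + (-k)); omega
    · show y.1 + (k+1) - (y.2 + (-k)) = ((a+b+1 : ℕ) : ℤ); push_cast; omega
    · exact h4.lift (fun z : ℤ × ℤ => (z.1 + (k+1), z.2 + (-k))) fun p q hpq => (hstep ω p q).mp hpq
  · rintro ⟨x, y, h1, h2, h3, h4⟩
    refine ⟨(x.1 - (k+1), x.2 - (-k)), (y.1 - (k+1), y.2 - (-k)), ?_, ?_, ?_, ?_⟩
    · show x.1 - (k+1) - (x.2 - (-k)) = 0; omega
    · show 0 ≤ x.1 - (k+1) + (x.2 - (-k)); omega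
    · show y.1 - (k+1) - (y.2 - (-k)) = (b:ℤ) + 1; push_cast at h3; omega
    · refine h4.lift (fun z : ℤ × ℤ => (z.1 - (k+1), z.2 - (-k))) fun p q hpq => ?_
      show SAdj a b ω (p.1 - (k+1), p.2 - (-k)) (q.1 - (k+1), q.2 - (-k))
      rw [hstep]
      simpa using hpq

/-! ## the limit for all widths -/

/-- Cardy's function -/
noncomputable def cardyF (x : ℝ) : ℝ :=
  (∫ t in (0:ℝ)..x, (t*(1-t))^(-(2:ℝ)/3)) / ∫ t in (0:ℝ)..1, (t*(1-t))^(-(2:ℝ)/3)

theorem cardyF_zero : cardyF 0 = 0 := by simp [cardyF]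

theorem cardyF_one : cardyF 1 = 1 := by
  unfold cardyF
  apply div_self
  have h := Pool.Agent.H757R2.CardyLimit.int_gd_pos
  have e : ∀ t : ℝ, (t * (1 - t)) ^ (-(2:ℝ)/3) = Pool.Agent.H757R2.CardyLimit.gd t := by
    intro t
    unfold Pool.Agent.H757R2.CardyLimit.gd
    congr 1
    ring
  simp_rw [e]
  exact h.ne'

theorem ratio_lim {a b a' b' : ℕ → ℕ} {x : ℝ}
    (h1 : Tendsto (fun n => (a n : ℝ) + b n) atTop atTop)
    (h2 : Tendsto (fun n => (a n : ℝ) / (a n + b n)) atTop (𝓝 x))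
    (ha : ∀ n, |(a' n : ℝ) - a n| ≤ 1) (hb : ∀ n, |(b' n : ℝ) - b n| ≤ 1) :
    Tendsto (fun n => (a' n : ℝ) + b' n) atTop atTop ∧
      Tendsto (fun n => (a' n : ℝ) / (a' n + b' n)) atTop (𝓝 x) := by
  have h3 : Tendsto (fun n => (a' n : ℝ) + b' n) atTop atTop := by
    refine tendsto_atTop_mono (f := fun n => (a n : ℝ) + b n + (-2)) (fun n => ?_)
      (tendsto_atTop_add_const_right _ _ h1)
    have := (abs_le.mp (ha n)).1
    have := (abs_le.mp (hb n)).1
    linarith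
  refine ⟨h3, ?_⟩
  have hinv : Tendsto (fun n => 1 / ((a n : ℝ) + b n)) atTop (𝓝 0) := by
    refine h1.inv_tendsto_atTop.congr fun n => ?_
    rw [Pi.inv_apply, one_div]
  have d1 : Tendsto (fun n => ((a' n : ℝ) - a n) / ((a n : ℝ) + b n)) atTop (𝓝 0) := by
    refine squeeze_zero_norm (fun n => ?_) hinv
    rw [norm_div, Real.norm_eq_abs, Real.norm_eq_abs,
      abs_of_nonneg (by positivity : (0:ℝ) ≤ (a n : ℝ) + b n)]
    exact div_le_div_of_nonneg_right (ha n) (by positivity)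
  have d2 : Tendsto (fun n => ((b' n : ℝ) - b n) / ((a n : ℝ) + b n)) atTop (𝓝 0) := by
    refine squeeze_zero_norm (fun n => ?_) hinv
    rw [norm_div, Real.norm_eq_abs, Real.norm_eq_abs,
      abs_of_nonneg (by positivity : (0:ℝ) ≤ (a n : ℝ) + b n)]
    exact div_le_div_of_nonneg_right (hb n) (by positivity)
  have e1 : Tendsto (fun n => (a n : ℝ) / (a n + b n) + ((a' n : ℝ) - a n) / ((a n : ℝ) + b n))
      atTop (𝓝 (x + 0)) := h2.add d1
  have e2 : Tendsto (fun n => 1 + ((a' n : ℝ) - a n) / ((a n : ℝ) + b n) +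
      ((b' n : ℝ) - b n) / ((a n : ℝ) + b n)) atTop (𝓝 (1 + 0 + 0)) :=
    (d1.const_add 1).add d2
  have e3 := e1.div e2 (by norm_num)
  simp only [add_zero, div_one] at e3
  refine e3.congr' ?_
  filter_upwards [h1.eventually_gt_atTop 0, h3.eventually_gt_atTop 0] with n p1 p2
  simp only [Pi.div_apply]
  have q1 : (a n : ℝ) + b n ≠ 0 := p1.ne'
  have q2 : (a' n : ℝ) + b' n ≠ 0 := p2.ne'
  have r1 : (a n : ℝ) / (a n + b n) + ((a' n : ℝ) - a n) / ((a n : ℝ) + b n) =
      (a' n : ℝ) / (a n + b n) := by rw [← add_div]; ring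
  have r2 : 1 + ((a' n : ℝ) - a n) / ((a n : ℝ) + b n) + ((b' n : ℝ) - b n) / ((a n : ℝ) + b n) =
      ((a' n : ℝ) + b' n) / (a n + b n) := by
    field_simp
    ring
  rw [r1, r2, div_div_div_cancel_right₀ q1]

/-- odd number below -/
def od (n : ℕ) : ℕ := if n % 2 = 1 then n else if n = 0 then 1 else n - 1
/-- odd number above -/
def ou (n : ℕ) : ℕ := if n % 2 = 1 then n else n + 1

theorem od_odd (n : ℕ) : Odd (od n) := by
  rw [Nat.odd_iff]; unfold od; split_ifs <;> omega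
theorem ou_odd (n : ℕ) : Odd (ou n) := by
  rw [Nat.odd_iff]; unfold ou; split_ifs <;> omega
theorem od_le {n : ℕ} (h : n ≠ 0) : od n ≤ n := by unfold od; split_ifs <;> omega
theorem le_ou (n : ℕ) : n ≤ ou n := by unfold ou; split_ifs <;> omega
theorem od_dist (n : ℕ) : |(od n : ℝ) - n| ≤ 1 := by
  have h1 : od n ≤ n + 1 := by unfold od; split_ifs <;> omega
  have h2 : n ≤ od n + 1 := by unfold od; split_ifs <;> omega
  have h1' : (od n : ℝ) ≤ n + 1 := by exact_mod_cast h1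
  have h2' : (n : ℝ) ≤ od n + 1 := by exact_mod_cast h2
  rw [abs_le]; constructor <;> linarith
theorem ou_dist (n : ℕ) : |(ou n : ℝ) - n| ≤ 1 := by
  have h1 : ou n ≤ n + 1 := by unfold ou; split_ifs <;> omega
  have h2 : n ≤ ou n + 1 := by unfold ou; split_ifs <;> omega
  have h1' : (ou n : ℝ) ≤ n + 1 := by exact_mod_cast h1
  have h2' : (n : ℝ) ≤ ou n + 1 := by exact_mod_cast h2
  rw [abs_le]; constructor <;> linarith

theorem odd_tendsto (hE : S_Exact) (hD : S_D) {a b : ℕ → ℕ} {x : ℝ} (hx : x ∈ Set.Icc (0:ℝ) 1)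
    (ha : ∀ n, Odd (a n)) (hb : ∀ n, Odd (b n))
    (h1 : Tendsto (fun n => (a n : ℝ) + b n) atTop atTop)
    (h2 : Tendsto (fun n => (a n : ℝ) / (a n + b n)) atTop (𝓝 x)) :
    Tendsto (fun n => perc.real (SCross (a n) (b n))) atTop (𝓝 (cardyF x)) := by
  refine (hD a b x hx h1 h2).congr fun n => ?_
  rw [scross_eq (ha n), hE (a n) (b n) (ha n) (hb n)]

/-- **Cardy's formula for the slit strip, all widths.** -/
theorem cross_tendsto (hE : S_Exact) (hD : S_D) (a b : ℕ → ℕ) (x : ℝ) (hx : x ∈ Set.Icc (0:ℝ) 1)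
    (h1 : Tendsto (fun n => (a n : ℝ) + b n) atTop atTop)
    (h2 : Tendsto (fun n => (a n : ℝ) / (a n + b n)) atTop (𝓝 x)) :
    Tendsto (fun n => perc.real (SCross (a n) (b n))) atTop (𝓝 (cardyF x)) := by
  rw [tendsto_order]
  constructor
  · intro c hc
    by_cases hx0 : x = 0
    · subst hx0
      rw [cardyF_zero] at hc
      exact Eventually.of_forall fun n => lt_of_lt_of_le hc measureReal_nonneg
    · have hx' : 0 < x := lt_of_le_of_ne hx.1 (Ne.symm hx0)
      obtain ⟨g1, g2⟩ := ratio_lim (a' := fun n => od (a n)) (b' := fun n => ou (b n)) h1 h2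
        (fun n => od_dist _) (fun n => ou_dist _)
      have h3 := odd_tendsto hE hD hx (fun n => od_odd (a n)) (fun n => ou_odd (b n)) g1 g2
      filter_upwards [h3.eventually_const_lt hc, h2.eventually_const_lt hx'] with n p1 p2
      have hne : a n ≠ 0 := by
        intro h
        rw [h] at p2
        simp at p2
      exact lt_of_lt_of_le p1 ((cross_mono_left (od_le hne) _).trans (cross_anti_right _ (le_ou _)))
  · intro c hc
    by_cases hx1 : x = 1
    · subst hx1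
      rw [cardyF_one] at hc
      exact Eventually.of_forall fun n => lt_of_le_of_lt measureReal_le_one hc
    · have hx' : x < 1 := lt_of_le_of_ne hx.2 hx1
      obtain ⟨g1, g2⟩ := ratio_lim (a' := fun n => ou (a n)) (b' := fun n => od (b n)) h1 h2
        (fun n => ou_dist _) (fun n => od_dist _)
      have h3 := odd_tendsto hE hD hx (fun n => ou_odd (a n)) (fun n => od_odd (b n)) g1 g2
      filter_upwards [h3.eventually_lt_const hc, h2.eventually_lt_const hx',
        h1.eventually_gt_atTop 0] with n p1 p2 p3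
      have hne : b n ≠ 0 := by
        intro h
        rw [h] at p2 p3
        simp only [Nat.cast_zero, add_zero] at p2 p3
        rw [div_self p3.ne'] at p2
        exact lt_irrefl _ p2
      exact lt_of_le_of_lt ((cross_mono_left (le_ou _) _).trans (cross_anti_right _ (od_le hne))) p1

end Pool.Agent.H863R4
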