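import Pool.Agent.H863R4.SlitMap
import Pool.Agent.H863R4.AllPar

/-!
Cardy's formula for the slit strip with its conformal map (helper863, room CARDY).

Coordinates: a vertex `(u,v)` of `δ ℤ²` sits at `X + iY`, `X = δ(u-v)`, `Y = δ(u+v)` (rotation by 45°
and scaling). The slit strip is `Dom α β = {-α < X < β} \ {X = 0, Y ≥ 0}`.
-/

namespace Pool.Agent.H863R4

open Filter Topology Set Real Pool.Agent.H988R2.Perc Pool.Agent.H31C

/-- the slit strip `{-α < X < β} \ {X = 0, Y ≥ 0}` -/
def Dom (α β : ℝ) : Set ℂ := {w | -α < w.re ∧ w.re < β ∧ (w.re = 0 → w.im < 0)}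

/-- the (orientation reversing) conformal map of the upper half-plane onto the slit strip -/
noncomputable def phi (α β : ℝ) (z : ℂ) : ℂ :=
  ⟨β - (sm α β z).im / π, (tipM α β - (sm α β z).re) / π⟩

/-- the change of coordinates -/
noncomputable def chg (α β : ℝ) (w : ℂ) : ℂ := ⟨β - w.im / π, (tipM α β - w.re) / π⟩

theorem phi_eq (α β : ℝ) (z : ℂ) : phi α β z = chg α β (sm α β z) := rfl

theorem chg_inj (α β : ℝ) : Function.Injective (chg α β) := by
  intro w w' h
  have h1 := congrArg Complex.re h
  have h2 := congrArg Complex.im h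
  simp only [chg] at h1 h2
  have hp := pi_pos
  apply Complex.ext
  · field_simp at h2; linarith
  · have : w.im / π = w'.im / π := by linarith
    field_simp at this; exact this

theorem chg_surj (α β : ℝ) : Function.Surjective (chg α β) := by
  intro w
  have hp : π ≠ 0 := pi_pos.ne'
  refine ⟨⟨tipM α β - π * w.im, π * (β - w.re)⟩, ?_⟩
  apply Complex.ext
  · simp only [chg]; field_simp; ring
  · simp only [chg]; field_simp; ring

theorem chg_bijOn {α β : ℝ} {S T : Set ℂ} (h : ∀ w, w ∈ S ↔ chg α β w ∈ T) :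
    BijOn (chg α β) S T := by
  refine ⟨fun w hw => (h w).mp hw, (chg_inj α β).injOn, ?_⟩
  intro w hw
  obtain ⟨w', rfl⟩ := chg_surj α β w
  exact ⟨w', (h w').mpr hw, rfl⟩

theorem conj_phi (α β : ℝ) (z : ℂ) :
    (starRingEnd ℂ) (phi α β z) = (β : ℂ) - ((tipM α β / π : ℝ) : ℂ) * Complex.I +
      Complex.I / π * sm α β z := by
  have hp : π ≠ 0 := pi_pos.ne'
  have e : Complex.I / (π : ℂ) = ((1 / π : ℝ) : ℂ) * Complex.I := by push_cast; ring
  rw [e]
  apply Complex.ext
  · simp [phi]; ring
  · simp [phi]; ring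

/-- the uniformization of the slit strip with marked points `0, x, 1, ∞` -/
structure Uniformizes (α β x : ℝ) (f : ℂ → ℂ) : Prop where
  /-- the complex conjugate of `f` is holomorphic in the upper half-plane -/
  holo : DifferentiableOn ℂ (fun z => (starRingEnd ℂ) (f z)) {z | 0 < z.im}
  /-- `f` is a bijection of the upper half-plane onto the slit strip -/
  bij : BijOn f {z | 0 < z.im} (Dom α β)
  /-- `f` is continuous up to the boundary (without `0`, `1`) -/
  cont : ContinuousOn f {z : ℂ | 0 ≤ z.im ∧ z ≠ 0 ∧ z ≠ 1}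
  /-- `(-∞,0)` is mapped to the left wall -/
  leftWall : BijOn (fun t : ℝ => f t) (Iio 0) {w | w.re = -α}
  /-- `(1,∞)` is mapped to the right wall -/
  rightWall : BijOn (fun t : ℝ => f t) (Ioi 1) {w | w.re = β}
  /-- `(0,x)` is mapped to the left bank of the slit -/
  leftBank : BijOn (fun t : ℝ => f t) (Ioo 0 x) {w | w.re = 0 ∧ 0 < w.im}
  leftBank' : ∀ t ∈ Ioo 0 x, ∀ᶠ z in 𝓝[{z : ℂ | 0 < z.im}] (t : ℂ), (f z).re < 0
  /-- `(x,1)` is mapped to the right bank of the slit -/
  rightBank : BijOn (fun t : ℝ => f t) (Ioo x 1) {w | w.re = 0 ∧ 0 < w.im}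
  rightBank' : ∀ t ∈ Ioo x 1, ∀ᶠ z in 𝓝[{z : ℂ | 0 < z.im}] (t : ℂ), 0 < (f z).re
  /-- `x` is mapped to the tip of the slit -/
  tip : f (x : ℂ) = 0

theorem uniformizes {α β : ℝ} (hα : 0 < α) (hβ : 0 < β) :
    Uniformizes α β (α / (α + β)) (phi α β) := by
  have hp : 0 < π := pi_pos
  have aux1 : ∀ y c : ℝ, β - y / π = c ↔ y = (β - c) * π := by
    intro y c
    constructor
    · intro h
      have : y / π = β - c := by linarith
      rw [div_eq_iff hp.ne'] at this
      exact this
    · rintro rfl
      rw [mul_div_cancel_right₀ _ hp.ne']; ring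
  have aux2 : ∀ y : ℝ, 0 < (tipM α β - y) / π ↔ y < tipM α β := by
    intro y
    rw [div_pos_iff_of_pos_right hp]
    constructor <;> intro h <;> linarith
  refine ⟨?_, ?_, ?_, ?_, ?_, ?_, ?_, ?_, ?_, ?_⟩
  · have : (fun z => (starRingEnd ℂ) (phi α β z)) = fun z =>
        (β : ℂ) - ((tipM α β / π : ℝ) : ℂ) * Complex.I + Complex.I / π * sm α β z := by
      funext z; exact conj_phi α β z
    rw [this]
    exact ((sm_differentiableOn α β).const_mul _).const_add _
  · refine (chg_bijOn (fun w => ?_)).comp (sm_bijOn hα hβ)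
    simp only [slitStrip, Dom, chg, mem_ofPred_eq]
    constructor
    · rintro ⟨h1, h2, h3⟩
      refine ⟨?_, ?_, ?_⟩
      · have : w.im / π < α + β := by rw [div_lt_iff₀ hp]; exact h2
        linarith
      · have : 0 < w.im / π := div_pos h1 hp
        linarith
      · intro h
        have h4 := h3 (by rw [(aux1 w.im 0).mp h]; ring)
        apply div_neg_of_neg_of_pos _ hp
        linarith
    · rintro ⟨h1, h2, h3⟩
      refine ⟨?_, ?_, ?_⟩
      · have : 0 < w.im / π := by linarith
        exact (div_pos_iff_of_pos_right hp).mp this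
      · have : w.im / π < α + β := by linarith
        rwa [div_lt_iff₀ hp] at this
      · intro h
        have h4 := h3 ((aux1 w.im 0).mpr (by rw [h]; ring))
        rw [div_lt_iff₀ hp, zero_mul] at h4
        linarith
  · have hc := sm_continuousOn α β
    have h2 : Continuous (chg α β) := by
      have : chg α β = fun w => ((β - w.im / π : ℝ) : ℂ) +
          (((tipM α β - w.re) / π : ℝ) : ℂ) * Complex.I := by
        funext w
        apply Complex.ext <;> simp [chg]
      rw [this]
      have c1 : Continuous fun w : ℂ => (β - w.im / π : ℝ) :=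
        continuous_const.sub (Complex.continuous_im.div_const _)
      have c2 : Continuous fun w : ℂ => ((tipM α β - w.re) / π : ℝ) :=
        (continuous_const.sub Complex.continuous_re).div_const _
      exact (Complex.continuous_ofReal.comp c1).add
        ((Complex.continuous_ofReal.comp c2).mul continuous_const)
    exact h2.comp_continuousOn hc
  · refine (chg_bijOn (fun w => ?_)).comp (sm_bijOn_neg hα hβ)
    simp only [chg, mem_ofPred_eq]
    rw [aux1]
    constructor <;> intro h <;> rw [h] <;> ring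
  · refine (chg_bijOn (fun w => ?_)).comp (sm_bijOn_big hα hβ)
    simp only [chg, mem_ofPred_eq]
    rw [aux1, sub_self, zero_mul]
  · refine (chg_bijOn (fun w => ?_)).comp (sm_bijOn_left hα hβ)
    simp only [chg, mem_ofPred_eq]
    rw [aux1, aux2, sub_zero]
  · intro t ht
    filter_upwards [sm_side_left hα hβ ht] with z hz
    show β - (sm α β z).im / π < 0
    rw [sub_neg, lt_div_iff₀ hp]
    exact hz
  · refine (chg_bijOn (fun w => ?_)).comp (sm_bijOn_right hα hβ)
    simp only [chg, mem_ofPred_eq]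
    rw [aux1, aux2, sub_zero]
  · intro t ht
    filter_upwards [sm_side_right hα hβ ht] with z hz
    show 0 < β - (sm α β z).im / π
    rw [sub_pos, div_lt_iff₀ hp]
    exact hz
  · rw [phi_eq, sm_tip hα hβ]
    apply Complex.ext
    · simp only [chg, Complex.zero_re]; field_simp; ring
    · simp only [chg, Complex.zero_im, sub_self, zero_div]

/-- the limit for the event `Cross` itself: `a n` odd, `b n` arbitrary -/
theorem cross_tendsto_odd (hE : S_Exact) (hD : S_D) (a b : ℕ → ℕ) (x : ℝ) (hx : x ∈ Icc (0:ℝ) 1)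
    (ha : ∀ n, Odd (a n))
    (h1 : Tendsto (fun n => (a n : ℝ) + b n) atTop atTop)
    (h2 : Tendsto (fun n => (a n : ℝ) / (a n + b n)) atTop (𝓝 x)) :
    Tendsto (fun n => perc.real (Cross (a n) (b n))) atTop (𝓝 (cardyF x)) :=
  (cross_tendsto hE hD a b x hx h1 h2).congr fun n => scross_eq (ha n) (b n)

/-- **Cardy's formula for bond percolation on `ℤ²` in the slit strips.** `x = α/(α+β)`: there is a
conformal map (orientation reversing) of the upper half-plane onto the slit strip taking `(0,x)` to
the left bank of the slit and `(1,∞)` to the right wall, and the probability that the left bank is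
joined to the right wall tends to Cardy's function of `x`. -/
theorem cardy_slit (hE : S_Exact) (hD : S_D) {α β : ℝ} (hα : 0 < α) (hβ : 0 < β) :
    (∃ f : ℂ → ℂ, Uniformizes α β (α / (α + β)) f) ∧
      ∀ (δ : ℕ → ℝ) (a b : ℕ → ℕ), (∀ n, 0 < δ n) → Tendsto δ atTop (𝓝 0) →
        Tendsto (fun n => δ n * a n) atTop (𝓝 α) → Tendsto (fun n => δ n * b n) atTop (𝓝 β) →
        Tendsto (fun n => perc.real (SCross (a n) (b n))) atTop
          (𝓝 ((∫ t in (0:ℝ)..(α / (α + β)), (t*(1-t))^(-(2:ℝ)/3)) /
            ∫ t in (0:ℝ)..1, (t*(1-t))^(-(2:ℝ)/3))) := by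
  have hab : 0 < α + β := add_pos hα hβ
  have x0 : 0 < α / (α + β) := div_pos hα hab
  have x1 : α / (α + β) < 1 := by rw [div_lt_one hab]; linarith
  refine ⟨⟨_, uniformizes hα hβ⟩, ?_⟩
  intro δ a b hδ hδ0 ha hb
  have hsum : Tendsto (fun n => δ n * ((a n : ℝ) + b n)) atTop (𝓝 (α + β)) := by
    refine (ha.add hb).congr fun n => by ring
  apply cross_tendsto hE hD a b _ ⟨x0.le, x1.le⟩
  · have hinv : Tendsto (fun n => (δ n)⁻¹) atTop atTop :=
      (tendsto_nhdsWithin_iff.mpr ⟨hδ0, Eventually.of_forall hδ⟩).inv_tendsto_nhdsGT_zero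
    have := hinv.atTop_mul_pos hab hsum
    refine this.congr fun n => ?_
    rw [← mul_assoc, inv_mul_cancel₀ (hδ n).ne', one_mul]
  · refine (ha.div hsum hab.ne').congr fun n => ?_
    simp only [Pi.div_apply]
    rw [mul_div_mul_left _ _ (hδ n).ne']

end Pool.Agent.H863R4
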