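import Mathlib

/-!
The conformal map of the upper half-plane onto the slit strip (helper863, room CARDY).

For `α, β > 0`, `x = α/(α+β)`, the function `sm α β z = α log z + β log (z-1)` is
* holomorphic on the upper half-plane `HH` (`sm_differentiableOn`), and a bijection of `HH` onto
  `slitStrip α β = {0 < Im w < (α+β)π} \ {Im w = βπ, Re w ≤ M}` (`sm_bijOn`),
* continuous on the closed half-plane without `0, 1` (`sm_continuousOn`), and there it maps
  `(-∞,0)` bijectively onto the wall `Im = (α+β)π` (`sm_bijOn_neg`), `(1,∞)` onto the wall `Im = 0`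
  (`sm_bijOn_big`), `(0,x)` and `(x,1)` onto the two banks of the slit (`sm_bijOn_left`,
  `sm_bijOn_right`; `sm_side_left`, `sm_side_right`: the bank facing the channel of width `απ`, resp.
  the one facing the channel of width `βπ`), and `x` to the tip (`sm_tip`).
So the four marked points of the slit strip (upper left end, tip, upper right end, lower end) are
`0, x, 1, ∞` in the half-plane.
-/

namespace Pool.Agent.H863R4

open Filter Topology Set Real

/-- `α log z + β log (z-1)` -/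
noncomputable def sm (α β : ℝ) (z : ℂ) : ℂ := (α : ℂ) * Complex.log z + (β : ℂ) * Complex.log (z - 1)

/-- real part of the tip of the slit -/
noncomputable def tipM (α β : ℝ) : ℝ := α * log (α / (α + β)) + β * log (β / (α + β))

/-- the upper half-plane -/
def HH : Set ℂ := {z | 0 < z.im}

theorem sm_im (α β : ℝ) (z : ℂ) : (sm α β z).im = α * z.arg + β * (z - 1).arg := by
  simp [sm, Complex.log_im]

theorem sm_re (α β : ℝ) (z : ℂ) : (sm α β z).re = α * log ‖z‖ + β * log ‖z - 1‖ := by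
  simp [sm, Complex.log_re]

theorem ne_zero_of {z : ℂ} (hz : 0 < z.im) : z ≠ 0 := by
  rintro rfl; simp at hz

theorem im_sub_one (z : ℂ) : (z - 1).im = z.im := by simp

theorem arg_pos_of {z : ℂ} (hz : 0 < z.im) : 0 < z.arg := by
  rcases lt_or_eq_of_le (Complex.arg_nonneg_iff.mpr hz.le) with h | h
  · exact h
  · exfalso
    rw [eq_comm, Complex.arg_eq_zero_iff] at h
    exact hz.ne' h.2

theorem arg_lt_pi_of {z : ℂ} (hz : 0 < z.im) : z.arg < π := by
  rcases lt_or_eq_of_le (Complex.arg_le_pi z) with h | h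
  · exact h
  · exfalso
    rw [Complex.arg_eq_pi_iff] at h
    exact hz.ne' h.2

theorem sin_arg_mul (z : ℂ) : ‖z‖ * sin z.arg = z.im := by
  by_cases h : z = 0
  · simp [h]
  · rw [Complex.sin_arg, mul_div_cancel₀]
    exact norm_ne_zero_iff.mpr h

theorem cos_arg_mul (z : ℂ) : ‖z‖ * cos z.arg = z.re := by
  by_cases h : z = 0
  · simp [h]
  · rw [Complex.cos_arg h, mul_div_cancel₀]
    exact norm_ne_zero_iff.mpr h

/-- the angles of the triangle `0, 1, z` -/
theorem angles {z : ℂ} (hz : 0 < z.im) :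
    z.arg < (z - 1).arg ∧ ‖z‖ = sin (z - 1).arg / sin ((z - 1).arg - z.arg) ∧
      ‖z - 1‖ = sin z.arg / sin ((z - 1).arg - z.arg) := by
  have hz1 : 0 < (z - 1).im := by rw [im_sub_one]; exact hz
  have hn : 0 < ‖z‖ := norm_pos_iff.mpr (ne_zero_of hz)
  have hn1 : 0 < ‖z - 1‖ := norm_pos_iff.mpr (ne_zero_of hz1)
  have s0 := sin_arg_mul z
  have s1 := sin_arg_mul (z - 1)
  have c0 := cos_arg_mul z
  have c1 := cos_arg_mul (z - 1)
  rw [im_sub_one] at s1
  have hre : (z - 1).re = z.re - 1 := by simp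
  rw [hre] at c1
  set u := z.arg with hu
  set v := (z - 1).arg with hv
  have hu0 : 0 < u := arg_pos_of hz
  have hupi : u < π := arg_lt_pi_of hz
  have hv0 : 0 < v := arg_pos_of hz1
  have hvpi : v < π := arg_lt_pi_of hz1
  have key : ‖z‖ * ‖z - 1‖ * sin (v - u) = z.im := by
    rw [sin_sub]
    have : ‖z‖ * ‖z - 1‖ * (sin v * cos u - cos v * sin u) =
      (‖z - 1‖ * sin v) * (‖z‖ * cos u) - (‖z - 1‖ * cos v) * (‖z‖ * sin u) := by ring
    rw [this, s1, c0, c1, s0]; ring
  have hsin : 0 < sin (v - u) := by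
    by_contra h
    push Not at h
    have : ‖z‖ * ‖z - 1‖ * sin (v - u) ≤ 0 :=
      mul_nonpos_of_nonneg_of_nonpos (mul_pos hn hn1).le h
    linarith
  have huv : u < v := by
    by_contra h
    push Not at h
    have : sin (v - u) ≤ 0 := by
      apply sin_nonpos_of_nonpos_of_neg_pi_le <;> linarith
    linarith
  refine ⟨huv, ?_, ?_⟩
  · rw [eq_div_iff hsin.ne']
    have : ‖z - 1‖ * (‖z‖ * sin (v - u)) = ‖z - 1‖ * sin v := by
      rw [s1, ← key]; ring
    exact mul_left_cancel₀ hn1.ne' this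
  · rw [eq_div_iff hsin.ne']
    have : ‖z‖ * (‖z - 1‖ * sin (v - u)) = ‖z‖ * sin u := by
      rw [s0, ← key]; ring
    exact mul_left_cancel₀ hn.ne' this

/-- the point with given angles -/
noncomputable def pt (u v : ℝ) : ℂ :=
  ((sin v / sin (v - u) : ℝ) : ℂ) * (Complex.cos u + Complex.sin u * Complex.I)

theorem pt_sub_one {u v : ℝ} (h : sin (v - u) ≠ 0) :
    pt u v - 1 = ((sin u / sin (v - u) : ℝ) : ℂ) * (Complex.cos v + Complex.sin v * Complex.I) := by
  apply Complex.ext
  · simp only [pt, Complex.sub_re, Complex.one_re, Complex.re_ofReal_mul, Complex.add_re,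
      ← Complex.ofReal_cos, ← Complex.ofReal_sin, Complex.ofReal_re, Complex.re_ofReal_mul,
      Complex.I_re, mul_zero, add_zero]
    rw [div_mul_eq_mul_div, div_mul_eq_mul_div, div_sub_one h]
    congr 1
    rw [sin_sub]; ring
  · simp only [pt, Complex.sub_im, Complex.one_im, Complex.im_ofReal_mul, Complex.add_im,
      ← Complex.ofReal_cos, ← Complex.ofReal_sin, Complex.ofReal_im, Complex.im_ofReal_mul,
      Complex.I_im, mul_one, zero_add, sub_zero]
    ring

theorem pt_angles {u v : ℝ} (hu : 0 < u) (huv : u < v) (hv : v < π) :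
    0 < (pt u v).im ∧ (pt u v).arg = u ∧ (pt u v - 1).arg = v := by
  have hs : 0 < sin (v - u) := sin_pos_of_pos_of_lt_pi (by linarith) (by linarith)
  have hsu : 0 < sin u := sin_pos_of_pos_of_lt_pi hu (by linarith)
  have hsv : 0 < sin v := sin_pos_of_pos_of_lt_pi (by linarith) hv
  refine ⟨?_, ?_, ?_⟩
  · simp only [pt, Complex.im_ofReal_mul, Complex.add_im,
      ← Complex.ofReal_cos, ← Complex.ofReal_sin, Complex.ofReal_im,
      Complex.I_im, mul_one, zero_add]
    exact mul_pos (div_pos hsv hs) hsu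
  · rw [pt]
    exact Complex.arg_mul_cos_add_sin_mul_I (div_pos hsv hs) ⟨by linarith [pi_pos], by linarith⟩
  · rw [pt_sub_one hs.ne']
    exact Complex.arg_mul_cos_add_sin_mul_I (div_pos hsu hs) ⟨by linarith [pi_pos], by linarith⟩


/-! ## the real part as a function of `θ = v - u` at fixed imaginary part `s` -/

noncomputable def UU (α β s θ : ℝ) : ℝ := (s - β * θ) / (α + β)
noncomputable def VV (α β s θ : ℝ) : ℝ := (s + α * θ) / (α + β)

noncomputable def hh (α β s θ : ℝ) : ℝ :=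
  α * log (sin (VV α β s θ)) + β * log (sin (UU α β s θ)) - (α + β) * log (sin θ)

noncomputable def TH (α β s : ℝ) : ℝ := min (s / β) (((α + β) * π - s) / α)

section
variable {α β s : ℝ} (hα : 0 < α) (hβ : 0 < β)
include hα hβ

theorem VV_sub_UU (θ : ℝ) : VV α β s θ - UU α β s θ = θ := by
  unfold VV UU
  have : α + β ≠ 0 := (add_pos hα hβ).ne'
  field_simp
  ring

theorem mem_TH {θ : ℝ} : θ < TH α β s ↔ 0 < UU α β s θ ∧ VV α β s θ < π := by
  unfold TH UU VV
  have h : 0 < α + β := add_pos hα hβ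
  rw [lt_min_iff, lt_div_iff₀ hβ, lt_div_iff₀ hα, div_lt_iff₀ h]
  constructor
  · rintro ⟨h1, h2⟩
    refine ⟨div_pos (by linarith) h, by linarith⟩
  · rintro ⟨h1, h2⟩
    rw [lt_div_iff₀ h] at h1
    constructor <;> linarith

theorem hasDerivAt_hh {θ : ℝ} (h0 : 0 < θ) (h1 : θ < TH α β s) :
    ∃ d < 0, HasDerivAt (hh α β s) d θ := by
  have hab : 0 < α + β := add_pos hα hβ
  obtain ⟨hU, hV⟩ := (mem_TH hα hβ).mp h1
  have hd := VV_sub_UU hα hβ (s := s) θ
  set U := UU α β s θ with hUd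
  set V := VV α β s θ with hVd
  have sU : 0 < sin U := sin_pos_of_pos_of_lt_pi hU (by linarith)
  have sV : 0 < sin V := sin_pos_of_pos_of_lt_pi (by linarith) hV
  have sθ : 0 < sin θ := sin_pos_of_pos_of_lt_pi h0 (by linarith)
  have dU : HasDerivAt (UU α β s) (-β / (α + β)) θ := by
    unfold UU
    have : HasDerivAt (fun θ : ℝ => s - β * θ) (-β) θ := by
      simpa using ((hasDerivAt_id θ).const_mul β).const_sub s
    exact this.div_const _
  have dV : HasDerivAt (VV α β s) (α / (α + β)) θ := by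
    unfold VV
    have : HasDerivAt (fun θ : ℝ => s + α * θ) α θ := by
      simpa using ((hasDerivAt_id θ).const_mul α).const_add s
    exact this.div_const _
  have D : HasDerivAt (hh α β s) (α * ((cos V * (α / (α + β))) / sin V) +
      β * ((cos U * (-β / (α + β))) / sin U) - (α + β) * (cos θ / sin θ)) θ := by
    unfold hh
    exact (((dV.sin.log sV.ne').const_mul α).add ((dU.sin.log sU.ne').const_mul β)).sub
      (((hasDerivAt_sin θ).log sθ.ne').const_mul (α + β))
  refine ⟨_, ?_, D⟩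
  have hsθ : sin θ = sin V * cos U - cos V * sin U := by rw [← sin_sub, hd]
  have hcθ : cos θ = cos V * cos U + sin V * sin U := by rw [← cos_sub, hd]
  have key : (α * ((cos V * (α / (α + β))) / sin V) +
      β * ((cos U * (-β / (α + β))) / sin U) - (α + β) * (cos θ / sin θ)) *
      ((α + β) * sin U * sin V * sin θ) =
      -(α * cos V * sin U + β * cos U * sin V) ^ 2 - ((α + β) * sin U * sin V) ^ 2 := by
    have e1 : (α * ((cos V * (α / (α + β))) / sin V) +
      β * ((cos U * (-β / (α + β))) / sin U) - (α + β) * (cos θ / sin θ)) *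
      ((α + β) * sin U * sin V * sin θ) =
      α ^ 2 * cos V * sin U * sin θ - β ^ 2 * cos U * sin V * sin θ -
        (α + β) ^ 2 * cos θ * sin U * sin V := by
      field_simp
      try ring
    rw [e1, hsθ, hcθ]
    ring
  have hpos : 0 < (α + β) * sin U * sin V * sin θ := by positivity
  have hneg : -(α * cos V * sin U + β * cos U * sin V) ^ 2 - ((α + β) * sin U * sin V) ^ 2 < 0 := by
    have h1 : 0 < ((α + β) * sin U * sin V) ^ 2 := by positivity
    have h2 := sq_nonneg (α * cos V * sin U + β * cos U * sin V)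
    linarith
  by_contra hcon
  push Not at hcon
  have := mul_nonneg hcon hpos.le
  rw [key] at this
  linarith

theorem hh_strictAnti : StrictAntiOn (hh α β s) (Ioo 0 (TH α β s)) := by
  apply strictAntiOn_of_deriv_neg (convex_Ioo _ _)
  · intro θ hθ
    obtain ⟨d, _, hd⟩ := hasDerivAt_hh hα hβ hθ.1 hθ.2
    exact hd.continuousAt.continuousWithinAt
  · intro θ hθ
    rw [interior_Ioo] at hθ
    obtain ⟨d, hd0, hd⟩ := hasDerivAt_hh hα hβ hθ.1 hθ.2
    rw [hd.deriv]
    exact hd0

theorem hh_continuousOn : ContinuousOn (hh α β s) (Ioo 0 (TH α β s)) := by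
  intro θ hθ
  obtain ⟨d, _, hd⟩ := hasDerivAt_hh hα hβ hθ.1 hθ.2
  exact hd.continuousAt.continuousWithinAt

theorem UU_of (u v : ℝ) : UU α β (α * u + β * v) (v - u) = u := by
  unfold UU
  have : α + β ≠ 0 := (add_pos hα hβ).ne'
  field_simp
  ring

theorem VV_of (u v : ℝ) : VV α β (α * u + β * v) (v - u) = v := by
  unfold VV
  have : α + β ≠ 0 := (add_pos hα hβ).ne'
  field_simp
  ring

/-- real part of `sm` in terms of `hh` -/
theorem sm_re_eq {z : ℂ} (hz : 0 < z.im) :
    (sm α β z).re = hh α β (sm α β z).im ((z - 1).arg - z.arg) ∧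
      (z - 1).arg - z.arg ∈ Ioo 0 (TH α β (sm α β z).im) := by
  have hz1 : 0 < (z - 1).im := by rw [im_sub_one]; exact hz
  obtain ⟨huv, hn, hn1⟩ := angles hz
  have hu0 : 0 < z.arg := arg_pos_of hz
  have hvpi : (z - 1).arg < π := arg_lt_pi_of hz1
  have sθ : 0 < sin ((z - 1).arg - z.arg) := sin_pos_of_pos_of_lt_pi (by linarith) (by linarith)
  have su : 0 < sin z.arg := sin_pos_of_pos_of_lt_pi hu0 (by linarith)
  have sv : 0 < sin (z - 1).arg := sin_pos_of_pos_of_lt_pi (by linarith) hvpi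
  constructor
  · rw [sm_re, sm_im, hh, UU_of hα hβ, VV_of hα hβ, hn, hn1, log_div sv.ne' sθ.ne',
      log_div su.ne' sθ.ne']
    ring
  · refine ⟨by linarith, ?_⟩
    rw [mem_TH hα hβ, sm_im, UU_of hα hβ, VV_of hα hβ]
    exact ⟨hu0, hvpi⟩

theorem sm_injOn : InjOn (sm α β) HH := by
  intro z hz w hw h
  obtain ⟨h1, h2⟩ := sm_re_eq hα hβ hz
  obtain ⟨h3, h4⟩ := sm_re_eq hα hβ hw
  rw [h] at h1 h2
  have hθ := (hh_strictAnti hα hβ).injOn h2 h4 (h1.symm.trans h3)
  have him : (sm α β z).im = (sm α β w).im := by rw [h]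
  rw [sm_im, sm_im] at him
  have hab : 0 < α + β := add_pos hα hβ
  have hu : z.arg = w.arg := by
    have : (α + β) * z.arg = (α + β) * w.arg := by
      have e : (z - 1).arg = z.arg + ((w - 1).arg - w.arg) := by linarith
      rw [e] at him
      linarith
    exact mul_left_cancel₀ hab.ne' this
  have hv : (z - 1).arg = (w - 1).arg := by linarith
  refine Complex.ext_norm_arg ?_ hu
  rw [(angles hz).2.1, (angles hw).2.1, hu, hv]

/-- the value of `sm` at the point with given angles -/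
theorem sm_pt {θ : ℝ} (h0 : 0 < θ) (h1 : θ < TH α β s) :
    pt (UU α β s θ) (VV α β s θ) ∈ HH ∧
      sm α β (pt (UU α β s θ) (VV α β s θ)) = ⟨hh α β s θ, s⟩ := by
  obtain ⟨hU, hV⟩ := (mem_TH hα hβ).mp h1
  have hd := VV_sub_UU hα hβ (s := s) θ
  have hab : α + β ≠ 0 := (add_pos hα hβ).ne'
  obtain ⟨p1, p2, p3⟩ := pt_angles hU (show UU α β s θ < VV α β s θ by linarith) hV
  refine ⟨p1, ?_⟩
  have him : (sm α β (pt (UU α β s θ) (VV α β s θ))).im = s := by
    rw [sm_im, p2, p3]
    unfold UU VV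
    field_simp
    ring
  apply Complex.ext
  · show _ = hh α β s θ
    rw [(sm_re_eq hα hβ p1).1, him, p2, p3, hd]
  · exact him

end


/-! ## range of `hh` -/

theorem tendsto_log_sin_zero {f : ℝ → ℝ} {l : Filter ℝ} (h : Tendsto f l (𝓝 0))
    (hpos : ∀ᶠ θ in l, 0 < f θ) : Tendsto (fun θ => log (sin (f θ))) l atBot := by
  refine tendsto_log_nhdsGT_zero.comp ?_
  rw [tendsto_nhdsWithin_iff]
  constructor
  · have : Tendsto (fun θ => sin (f θ)) l (𝓝 (sin 0)) :=
      (continuous_sin.tendsto 0).comp h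
    simpa using this
  · have h1 : ∀ᶠ θ in l, f θ < π := h.eventually_lt_const pi_pos
    filter_upwards [hpos, h1] with θ h2 h3
    exact sin_pos_of_pos_of_lt_pi h2 h3

section
variable {α β s : ℝ} (hα : 0 < α) (hβ : 0 < β)
include hα hβ

theorem UU_cont : Continuous (UU α β s) := by unfold UU; fun_prop
theorem VV_cont : Continuous (VV α β s) := by unfold VV; fun_prop

theorem TH_pos (hs0 : 0 < s) (hs1 : s < (α + β) * π) : 0 < TH α β s :=
  lt_min (div_pos hs0 hβ) (div_pos (by linarith) hα)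

theorem TH_le_pi : TH α β s ≤ π := by
  by_contra h
  push Not at h
  obtain ⟨h1, h2⟩ := (mem_TH hα hβ).mp h
  have := VV_sub_UU hα hβ (s := s) π
  linarith

/-- `hh → +∞` at `0` -/
theorem hh_top (hs0 : 0 < s) (hs1 : s < (α + β) * π) :
    Tendsto (hh α β s) (𝓝[>] 0) atTop := by
  have hab : 0 < α + β := add_pos hα hβ
  have hσ0 : 0 < s / (α + β) := div_pos hs0 hab
  have hσ1 : s / (α + β) < π := by rw [div_lt_iff₀ hab]; linarith
  have sσ : 0 < sin (s / (α + β)) := sin_pos_of_pos_of_lt_pi hσ0 hσ1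
  have tU : Tendsto (fun θ => log (sin (UU α β s θ))) (𝓝[>] 0) (𝓝 (log (sin (s / (α + β))))) := by
    have h1 : Tendsto (UU α β s) (𝓝[>] 0) (𝓝 (s / (α + β))) := by
      have := (UU_cont hα hβ (s := s)).tendsto 0
      have e : UU α β s 0 = s / (α + β) := by simp [UU]
      rw [e] at this
      exact this.mono_left nhdsWithin_le_nhds
    exact ((continuous_sin.tendsto _).comp h1).log sσ.ne'
  have tV : Tendsto (fun θ => log (sin (VV α β s θ))) (𝓝[>] 0) (𝓝 (log (sin (s / (α + β))))) := by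
    have h1 : Tendsto (VV α β s) (𝓝[>] 0) (𝓝 (s / (α + β))) := by
      have := (VV_cont hα hβ (s := s)).tendsto 0
      have e : VV α β s 0 = s / (α + β) := by simp [VV]
      rw [e] at this
      exact this.mono_left nhdsWithin_le_nhds
    exact ((continuous_sin.tendsto _).comp h1).log sσ.ne'
  have t0 : Tendsto (fun θ => log (sin θ)) (𝓝[>] (0:ℝ)) atBot := by
    refine tendsto_log_sin_zero (f := fun θ => θ) ?_ ?_
    · exact tendsto_id.mono_left nhdsWithin_le_nhds
    · exact eventually_mem_nhdsWithin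
  have t1 : Tendsto (fun θ => -((α + β) * log (sin θ))) (𝓝[>] (0:ℝ)) atTop :=
    tendsto_neg_atBot_atTop.comp (t0.const_mul_atBot hab)
  have t2 := ((tV.const_mul α).add (tU.const_mul β)).add_atTop t1
  refine t2.congr fun θ => ?_
  unfold hh; ring

/-- `hh → -∞` at the right end if `s ≠ β π` -/
theorem hh_bot (hs0 : 0 < s) (hs1 : s < (α + β) * π) (hne : s ≠ β * π) :
    Tendsto (hh α β s) (𝓝[<] (TH α β s)) atBot := by
  have hab : 0 < α + β := add_pos hα hβ
  have hT0 := TH_pos hα hβ hs0 hs1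
  have hmem : ∀ᶠ θ in 𝓝[<] (TH α β s), θ ∈ Ioo 0 (TH α β s) := Ioo_mem_nhdsLT hT0
  have hle : Tendsto (fun θ : ℝ => θ) (𝓝[<] (TH α β s)) (𝓝 (TH α β s)) :=
    tendsto_id.mono_left nhdsWithin_le_nhds
  have hTpi : TH α β s < π := by
    unfold TH
    rcases lt_or_gt_of_ne hne with h | h
    · refine lt_of_le_of_lt (min_le_left _ _) ?_
      rw [div_lt_iff₀ hβ]; linarith
    · refine lt_of_le_of_lt (min_le_right _ _) ?_
      rw [div_lt_iff₀ hα]; linarith
  have sT : 0 < sin (TH α β s) := sin_pos_of_pos_of_lt_pi hT0 hTpi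
  have tθ : Tendsto (fun θ => log (sin θ)) (𝓝[<] (TH α β s)) (𝓝 (log (sin (TH α β s)))) :=
    ((continuous_sin.tendsto _).comp hle).log sT.ne'
  have hUc : Tendsto (UU α β s) (𝓝[<] (TH α β s)) (𝓝 (UU α β s (TH α β s))) :=
    ((UU_cont hα hβ).tendsto _).mono_left nhdsWithin_le_nhds
  have hVc : Tendsto (VV α β s) (𝓝[<] (TH α β s)) (𝓝 (VV α β s (TH α β s))) :=
    ((VV_cont hα hβ).tendsto _).mono_left nhdsWithin_le_nhds
  have hdT := VV_sub_UU hα hβ (s := s) (TH α β s)
  rcases lt_or_gt_of_ne hne with h | h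
  · -- `s < β π`: `U → 0`
    have hTe : TH α β s = s / β := by
      unfold TH
      apply min_eq_left
      have h1 : s / β < π := by rw [div_lt_iff₀ hβ]; linarith
      have h2 : π < ((α + β) * π - s) / α := by rw [lt_div_iff₀ hα]; linarith
      linarith
    have hU0 : UU α β s (TH α β s) = 0 := by
      rw [hTe]; unfold UU
      rw [mul_div_cancel₀ _ hβ.ne', sub_self, zero_div]
    rw [hU0] at hUc hdT
    have hV0 : VV α β s (TH α β s) = TH α β s := by linarith
    rw [hV0] at hVc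
    have tU : Tendsto (fun θ => log (sin (UU α β s θ))) (𝓝[<] (TH α β s)) atBot := by
      refine tendsto_log_sin_zero hUc ?_
      filter_upwards [hmem] with θ hθ
      exact ((mem_TH hα hβ).mp hθ.2).1
    have tV : Tendsto (fun θ => log (sin (VV α β s θ))) (𝓝[<] (TH α β s))
        (𝓝 (log (sin (TH α β s)))) := ((continuous_sin.tendsto _).comp hVc).log sT.ne'
    have t2 := ((tV.const_mul α).sub (tθ.const_mul (α + β))).add_atBot (tU.const_mul_atBot hβ)
    refine t2.congr fun θ => ?_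
    unfold hh; ring
  · have hTe : TH α β s = ((α + β) * π - s) / α := by
      unfold TH
      apply min_eq_right
      have h1 : π < s / β := by rw [lt_div_iff₀ hβ]; linarith
      have h2 : ((α + β) * π - s) / α < π := by rw [div_lt_iff₀ hα]; linarith
      linarith
    have hV0 : VV α β s (TH α β s) = π := by
      rw [hTe]; unfold VV
      field_simp
      ring
    rw [hV0] at hVc hdT
    have hU0 : UU α β s (TH α β s) = π - TH α β s := by linarith
    rw [hU0] at hUc
    have sT' : 0 < sin (π - TH α β s) := by rw [sin_pi_sub]; exact sT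
    have tV : Tendsto (fun θ => log (sin (VV α β s θ))) (𝓝[<] (TH α β s)) atBot := by
      have h1 : Tendsto (fun θ => π - VV α β s θ) (𝓝[<] (TH α β s)) (𝓝 0) := by
        simpa using hVc.const_sub π
      have h2 := tendsto_log_sin_zero h1 (by
        filter_upwards [hmem] with θ hθ
        have := ((mem_TH hα hβ).mp hθ.2).2
        linarith)
      simpa [sin_pi_sub] using h2
    have tU : Tendsto (fun θ => log (sin (UU α β s θ))) (𝓝[<] (TH α β s))
        (𝓝 (log (sin (π - TH α β s)))) := ((continuous_sin.tendsto _).comp hUc).log sT'.ne'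
    have t2 := ((tU.const_mul β).sub (tθ.const_mul (α + β))).add_atBot (tV.const_mul_atBot hα)
    refine t2.congr fun θ => ?_
    unfold hh; ring

theorem TH_mid : TH α β (β * π) = π := by
  unfold TH
  rw [mul_div_cancel_left₀ _ hβ.ne', show (α + β) * π - β * π = α * π by ring,
    mul_div_cancel_left₀ _ hα.ne', min_self]

/-- formula on the line through the slit, `t = π - θ` -/
theorem hh_mid {t : ℝ} (ht0 : 0 < t) (ht1 : t < π) :
    hh α β (β * π) (π - t) = α * log (sin (α / (α + β) * t) / sin t) +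
      β * log (sin (β / (α + β) * t) / sin t) := by
  have hab : 0 < α + β := add_pos hα hβ
  have e1 : VV α β (β * π) (π - t) = π - α / (α + β) * t := by
    unfold VV; field_simp; ring
  have e2 : UU α β (β * π) (π - t) = β / (α + β) * t := by
    unfold UU; field_simp; ring
  have x0 : 0 < α / (α + β) := div_pos hα hab
  have x1 : α / (α + β) < 1 := by rw [div_lt_one hab]; linarith
  have y0 : 0 < β / (α + β) := div_pos hβ hab
  have y1 : β / (α + β) < 1 := by rw [div_lt_one hab]; linarith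
  have sx : 0 < sin (α / (α + β) * t) := sin_pos_of_pos_of_lt_pi (by positivity)
    (by nlinarith)
  have sy : 0 < sin (β / (α + β) * t) := sin_pos_of_pos_of_lt_pi (by positivity)
    (by nlinarith)
  have st : 0 < sin t := sin_pos_of_pos_of_lt_pi ht0 ht1
  rw [hh, e1, e2, sin_pi_sub, sin_pi_sub, log_div sx.ne' st.ne', log_div sy.ne' st.ne']
  ring

theorem sin_scale {x t : ℝ} (hx0 : 0 < x) (hx1 : x < 1) (ht0 : 0 < t) (ht1 : t < π) :
    x * sin t < sin (x * t) := by
  have h := strictConcaveOn_sin_Icc.2 (x := t) (y := 0) ⟨ht0.le, ht1.le⟩ ⟨le_rfl, pi_pos.le⟩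
    ht0.ne' hx0 (show 0 < 1 - x by linarith) (by ring)
  simpa using h

/-- on the line of the slit, `hh > M` -/
theorem hh_mid_gt {θ : ℝ} (h0 : 0 < θ) (h1 : θ < π) : tipM α β < hh α β (β * π) θ := by
  have hab : 0 < α + β := add_pos hα hβ
  have x0 : 0 < α / (α + β) := div_pos hα hab
  have x1 : α / (α + β) < 1 := by rw [div_lt_one hab]; linarith
  have y0 : 0 < β / (α + β) := div_pos hβ hab
  have y1 : β / (α + β) < 1 := by rw [div_lt_one hab]; linarith
  have ht0 : 0 < π - θ := by linarith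
  have ht1 : π - θ < π := by linarith
  have := hh_mid hα hβ ht0 ht1
  rw [sub_sub_cancel] at this
  rw [this, tipM]
  have st : 0 < sin (π - θ) := sin_pos_of_pos_of_lt_pi ht0 ht1
  have a1 : log (α / (α + β)) < log (sin (α / (α + β) * (π - θ)) / sin (π - θ)) :=
    log_lt_log x0 (by rw [lt_div_iff₀ st]; exact sin_scale hα hβ x0 x1 ht0 ht1)
  have a2 : log (β / (α + β)) < log (sin (β / (α + β) * (π - θ)) / sin (π - θ)) :=
    log_lt_log y0 (by rw [lt_div_iff₀ st]; exact sin_scale hα hβ y0 y1 ht0 ht1)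
  have b1 := mul_lt_mul_of_pos_left a1 hα
  have b2 := mul_lt_mul_of_pos_left a2 hβ
  linarith

theorem sin_ratio {x : ℝ} (hx : 0 < x) :
    Tendsto (fun t => sin (x * t) / sin t) (𝓝[>] (0:ℝ)) (𝓝 x) := by
  have h1 : Tendsto (fun t : ℝ => sin t / t) (𝓝[>] 0) (𝓝 1) := by
    have h := hasDerivAt_iff_tendsto_slope.mp (hasDerivAt_sin 0)
    rw [cos_zero] at h
    have h' : Tendsto (slope sin 0) (𝓝[>] 0) (𝓝 1) :=
      h.mono_left (nhdsWithin_mono _ (fun y hy => ne_of_gt hy))
    refine h'.congr fun t => ?_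
    simp [slope_def_field]
  have h2 : Tendsto (fun t : ℝ => x * t) (𝓝[>] 0) (𝓝[>] 0) := by
    rw [tendsto_nhdsWithin_iff]
    constructor
    · have : Tendsto (fun t : ℝ => x * t) (𝓝 0) (𝓝 (x * 0)) := (continuous_const_mul x).tendsto 0
      rw [mul_zero] at this
      exact this.mono_left nhdsWithin_le_nhds
    · filter_upwards [self_mem_nhdsWithin] with t ht
      exact mul_pos hx ht
  have h3 := h1.comp h2
  have h4 := (h3.const_mul x).div h1 one_ne_zero
  simp only [mul_one, div_one] at h4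
  refine h4.congr' ?_
  have hm : ∀ᶠ t : ℝ in 𝓝[>] 0, t ∈ Ioo 0 π := Ioo_mem_nhdsGT pi_pos
  filter_upwards [hm] with t ht
  have st : sin t ≠ 0 := (sin_pos_of_pos_of_lt_pi ht.1 ht.2).ne'
  have ht' : t ≠ 0 := ht.1.ne'
  simp only [Function.comp, Pi.div_apply]
  field_simp

theorem hh_mid_tendsto : Tendsto (fun t => hh α β (β * π) (π - t)) (𝓝[>] 0) (𝓝 (tipM α β)) := by
  have hab : 0 < α + β := add_pos hα hβ
  have x0 : 0 < α / (α + β) := div_pos hα hab
  have y0 : 0 < β / (α + β) := div_pos hβ hab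
  have h1 := ((sin_ratio hα hβ x0).log x0.ne').const_mul α
  have h2 := ((sin_ratio hα hβ y0).log y0.ne').const_mul β
  refine (h1.add h2).congr' ?_
  have hm : ∀ᶠ t : ℝ in 𝓝[>] 0, t ∈ Ioo 0 π := Ioo_mem_nhdsGT pi_pos
  filter_upwards [hm] with t ht
  exact (hh_mid hα hβ ht.1 ht.2).symm

/-- surjectivity of `hh` -/
theorem hh_surj (hs0 : 0 < s) (hs1 : s < (α + β) * π) {r : ℝ}
    (hr : s = β * π → tipM α β < r) : ∃ θ ∈ Ioo 0 (TH α β s), hh α β s θ = r := by
  have hT0 := TH_pos hα hβ hs0 hs1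
  -- a point above
  obtain ⟨θ₁, h11, h12⟩ : ∃ θ ∈ Ioo 0 (TH α β s), r ≤ hh α β s θ := by
    have h1 := (hh_top hα hβ hs0 hs1).eventually_ge_atTop r
    have h2 : ∀ᶠ θ in 𝓝[>] (0:ℝ), θ ∈ Ioo 0 (TH α β s) := Ioo_mem_nhdsGT hT0
    obtain ⟨θ, h3, h4⟩ := (h2.and h1).exists
    exact ⟨θ, h3, h4⟩
  obtain ⟨θ₂, h21, h22⟩ : ∃ θ ∈ Ioo 0 (TH α β s), hh α β s θ ≤ r := by
    by_cases hs : s = β * π
    · have hr' := hr hs
      subst hs
      rw [TH_mid hα hβ]
      have h1 := (hh_mid_tendsto hα hβ).eventually_lt_const hr'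
      have h2 : ∀ᶠ t in 𝓝[>] (0:ℝ), t ∈ Ioo 0 π := Ioo_mem_nhdsGT pi_pos
      obtain ⟨t, h3, h4⟩ := (h2.and h1).exists
      exact ⟨π - t, ⟨by linarith [h3.2], by linarith [h3.1]⟩, h4.le⟩
    · have h1 := (hh_bot hα hβ hs0 hs1 hs).eventually_le_atBot r
      have h2 : ∀ᶠ θ in 𝓝[<] (TH α β s), θ ∈ Ioo 0 (TH α β s) := Ioo_mem_nhdsLT hT0
      obtain ⟨θ, h3, h4⟩ := (h2.and h1).exists
      exact ⟨θ, h3, h4⟩
  have := isPreconnected_Ioo.intermediate_value h21 h11 (hh_continuousOn hα hβ)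
  obtain ⟨θ, hθ, he⟩ := this ⟨h22, h12⟩
  exact ⟨θ, hθ, he⟩

end

/-- the strip of width `(α+β)π` with a slit along `Im = β π`, `Re ≤ M` removed -/
def slitStrip (α β : ℝ) : Set ℂ :=
  {w | 0 < w.im ∧ w.im < (α + β) * π ∧ (w.im = β * π → tipM α β < w.re)}

theorem sm_bijOn {α β : ℝ} (hα : 0 < α) (hβ : 0 < β) : BijOn (sm α β) HH (slitStrip α β) := by
  refine ⟨?_, sm_injOn hα hβ, ?_⟩
  · intro z hz
    have hz1 : 0 < (z - 1).im := by rw [im_sub_one]; exact hz
    have hu0 : 0 < z.arg := arg_pos_of hz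
    have hu1 : z.arg < π := arg_lt_pi_of hz
    have hv0 : 0 < (z - 1).arg := arg_pos_of hz1
    have hv1 : (z - 1).arg < π := arg_lt_pi_of hz1
    refine ⟨?_, ?_, ?_⟩
    · rw [sm_im]; positivity
    · rw [sm_im]
      have h1 := mul_lt_mul_of_pos_left hu1 hα
      have h2 := mul_lt_mul_of_pos_left hv1 hβ
      linarith
    · intro h
      obtain ⟨h1, h2⟩ := sm_re_eq hα hβ hz
      rw [h] at h1 h2
      rw [TH_mid hα hβ] at h2
      rw [h1]
      exact hh_mid_gt hα hβ h2.1 h2.2
  · rintro w ⟨h0, h1, h2⟩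
    obtain ⟨θ, hθ, he⟩ := hh_surj hα hβ h0 h1 h2
    obtain ⟨p1, p2⟩ := sm_pt hα hβ hθ.1 hθ.2
    refine ⟨_, p1, ?_⟩
    rw [p2, he]


/-! ## analyticity and boundary behaviour -/

theorem sub_one_mem_slitPlane {z : ℂ} (hz : 0 < z.im) : z - 1 ∈ Complex.slitPlane := by
  right; rw [im_sub_one]; exact hz.ne'

theorem sm_differentiableOn (α β : ℝ) : DifferentiableOn ℂ (sm α β) HH := by
  intro z hz
  have h0 : z ∈ Complex.slitPlane := Or.inr (ne_of_gt hz)
  have h1 : z - 1 ∈ Complex.slitPlane := sub_one_mem_slitPlane hz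
  have d0 : DifferentiableAt ℂ Complex.log z := (Complex.hasDerivAt_log h0).differentiableAt
  have d1 : DifferentiableAt ℂ (fun z => Complex.log (z - 1)) z :=
    (((hasDerivAt_id z).sub_const 1).clog h1).differentiableAt
  exact ((d0.const_mul _).add (d1.const_mul _)).differentiableWithinAt

theorem clog_cont {z : ℂ} (h0 : 0 ≤ z.im) (hz : z ≠ 0) :
    ContinuousWithinAt Complex.log {z | 0 ≤ z.im} z := by
  by_cases h : z ∈ Complex.slitPlane
  · exact (continuousAt_clog h).continuousWithinAt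
  · have h1 : z.re ≤ 0 ∧ z.im = 0 := by
      rw [Complex.mem_slitPlane_iff] at h
      push Not at h
      exact h
    refine Complex.continuousWithinAt_log_of_re_neg_of_im_zero ?_ h1.2
    rcases lt_or_eq_of_le h1.1 with h2 | h2
    · exact h2
    · exact absurd (Complex.ext h2 h1.2) hz

/-- `sm` extends continuously to the closed half-plane without `0, 1` (by the same formula) -/
theorem sm_continuousOn (α β : ℝ) : ContinuousOn (sm α β) {z : ℂ | 0 ≤ z.im ∧ z ≠ 0 ∧ z ≠ 1} := by
  rintro z ⟨h0, h1, h2⟩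
  have c0 : ContinuousWithinAt Complex.log {z : ℂ | 0 ≤ z.im ∧ z ≠ 0 ∧ z ≠ 1} z :=
    (clog_cont h0 h1).mono fun w hw => hw.1
  have c1 : ContinuousWithinAt (fun z => Complex.log (z - 1)) {z : ℂ | 0 ≤ z.im ∧ z ≠ 0 ∧ z ≠ 1} z := by
    have h3 : ContinuousWithinAt Complex.log {z : ℂ | 0 ≤ z.im} (z - 1) :=
      clog_cont (by rw [im_sub_one]; exact h0) (sub_ne_zero.mpr h2)
    refine ContinuousWithinAt.comp (t := {z : ℂ | 0 ≤ z.im}) (g := Complex.log) (f := fun z => z - 1) h3 ?_ ?_
    · exact (continuous_id.sub continuous_const).continuousWithinAt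
    · intro w hw
      show 0 ≤ (w - 1).im
      rw [im_sub_one]; exact hw.1
  exact (c0.const_mul _).add (c1.const_mul _)

section
variable {α β : ℝ} (hα : 0 < α) (hβ : 0 < β)

theorem sm_neg {t : ℝ} (ht : t < 0) :
    (sm α β t).im = (α + β) * π ∧ (sm α β t).re = α * log (-t) + β * log (1 - t) := by
  have e : (t : ℂ) - 1 = ((t - 1 : ℝ) : ℂ) := by push_cast; ring
  constructor
  · rw [sm_im, e, Complex.arg_ofReal_of_neg ht, Complex.arg_ofReal_of_neg (by linarith)]
    ring
  · rw [sm_re, e, Complex.norm_real, Complex.norm_real, norm_eq_abs, norm_eq_abs,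
      abs_of_neg ht, abs_of_neg (by linarith : t - 1 < 0), neg_sub]

theorem sm_mid {t : ℝ} (ht0 : 0 < t) (ht1 : t < 1) :
    (sm α β t).im = β * π ∧ (sm α β t).re = α * log t + β * log (1 - t) := by
  have e : (t : ℂ) - 1 = ((t - 1 : ℝ) : ℂ) := by push_cast; ring
  constructor
  · rw [sm_im, e, Complex.arg_ofReal_of_nonneg ht0.le, Complex.arg_ofReal_of_neg (by linarith)]
    ring
  · rw [sm_re, e, Complex.norm_real, Complex.norm_real, norm_eq_abs, norm_eq_abs,
      abs_of_pos ht0, abs_of_neg (by linarith : t - 1 < 0), neg_sub]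

theorem sm_big {t : ℝ} (ht : 1 < t) :
    (sm α β t).im = 0 ∧ (sm α β t).re = α * log t + β * log (t - 1) := by
  have e : (t : ℂ) - 1 = ((t - 1 : ℝ) : ℂ) := by push_cast; ring
  constructor
  · rw [sm_im, e, Complex.arg_ofReal_of_nonneg (by linarith), Complex.arg_ofReal_of_nonneg (by linarith)]
    ring
  · rw [sm_re, e, Complex.norm_real, Complex.norm_real, norm_eq_abs, norm_eq_abs,
      abs_of_pos (by linarith : 0 < t), abs_of_pos (by linarith : 0 < t - 1)]

include hα hβ

/-- the real part over `(1,∞)`: strictly increasing bijection onto `ℝ` -/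
theorem big_bij : BijOn (fun t : ℝ => α * log t + β * log (t - 1)) (Ioi 1) univ := by
  have hmono : StrictMonoOn (fun t : ℝ => α * log t + β * log (t - 1)) (Ioi 1) := by
    intro x hx y hy hxy
    simp only [mem_Ioi] at hx hy
    have h1 : log x < log y := log_lt_log (by linarith) hxy
    have h2 : log (x - 1) < log (y - 1) := log_lt_log (by linarith) (by linarith)
    have := mul_lt_mul_of_pos_left h1 hα
    have := mul_lt_mul_of_pos_left h2 hβ
    show α * log x + β * log (x - 1) < α * log y + β * log (y - 1)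
    linarith
  refine ⟨fun _ _ => mem_univ _, hmono.injOn, ?_⟩
  intro r _
  have hc : ContinuousOn (fun t : ℝ => α * log t + β * log (t - 1)) (Ioi 1) := by
    intro t ht
    simp only [mem_Ioi] at ht
    have c1 : ContinuousAt (fun t : ℝ => log t) t := continuousAt_log (by linarith)
    have c2 : ContinuousAt (fun t : ℝ => log (t - 1)) t :=
      ContinuousAt.log (by fun_prop) (by linarith)
    exact ((c1.const_mul α).add (c2.const_mul β)).continuousWithinAt
  have hab : 0 < α + β := add_pos hα hβ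
  -- above
  have h1 : Tendsto (fun t : ℝ => α * log t + β * log (t - 1)) atTop atTop := by
    have t1 : Tendsto (fun t : ℝ => α * log t) atTop atTop := tendsto_log_atTop.const_mul_atTop hα
    have t2 : Tendsto (fun t : ℝ => β * log (t - 1)) atTop atTop :=
      (tendsto_log_atTop.comp (tendsto_atTop_add_const_right _ (-1) tendsto_id)).const_mul_atTop hβ
    exact t1.atTop_add_atTop t2
  have h2 : Tendsto (fun t : ℝ => α * log t + β * log (t - 1)) (𝓝[>] 1) atBot := by
    have t1 : Tendsto (fun t : ℝ => α * log t) (𝓝[>] 1) (𝓝 (α * log 1)) :=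
      ((continuousAt_log one_ne_zero).tendsto.mono_left nhdsWithin_le_nhds).const_mul α
    have t2 : Tendsto (fun t : ℝ => β * log (t - 1)) (𝓝[>] 1) atBot := by
      refine (tendsto_log_nhdsGT_zero.comp ?_).const_mul_atBot hβ
      rw [tendsto_nhdsWithin_iff]
      constructor
      · have : Tendsto (fun t : ℝ => t - 1) (𝓝 1) (𝓝 (1 - 1)) :=
          (continuous_id.sub continuous_const).tendsto 1
        rw [sub_self] at this
        exact this.mono_left nhdsWithin_le_nhds
      · filter_upwards [self_mem_nhdsWithin] with t ht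
        simpa using ht
    exact t1.add_atBot t2
  obtain ⟨t₁, ht1, hr1⟩ := ((eventually_gt_atTop (1:ℝ)).and (h1.eventually_ge_atTop r)).exists
  have hm : ∀ᶠ t : ℝ in 𝓝[>] 1, t ∈ Ioi (1:ℝ) := self_mem_nhdsWithin
  obtain ⟨t₂, ht2, hr2⟩ := (hm.and (h2.eventually_le_atBot r)).exists
  obtain ⟨t, ht, he⟩ := isPreconnected_Ioi.intermediate_value ht2 ht1 hc ⟨hr2, hr1⟩
  exact ⟨t, ht, he⟩

/-- `sm` maps `(1,∞)` onto the line `Im = 0` -/
theorem sm_bijOn_big : BijOn (fun t : ℝ => sm α β t) (Ioi 1) {w | w.im = 0} := by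
  obtain ⟨_, hi, hs⟩ := big_bij hα hβ
  refine ⟨fun t ht => (sm_big ht).1, ?_, ?_⟩
  · intro x hx y hy h
    apply hi hx hy
    have := congrArg Complex.re h
    simp only [(sm_big (α := α) (β := β) hx).2, (sm_big (α := α) (β := β) hy).2] at this
    exact this
  · intro w hw
    obtain ⟨t, ht, he⟩ := hs (mem_univ w.re)
    exact ⟨t, ht, Complex.ext ((sm_big ht).2.trans he) ((sm_big ht).1.trans hw.symm)⟩

/-- `sm` maps `(-∞,0)` onto the line `Im = (α+β) π` -/
theorem sm_bijOn_neg : BijOn (fun t : ℝ => sm α β t) (Iio 0) {w | w.im = (α + β) * π} := by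
  obtain ⟨_, hi, hs⟩ := big_bij hβ hα
  refine ⟨fun t ht => (sm_neg ht).1, ?_, ?_⟩
  · intro x hx y hy h
    simp only [mem_Iio] at hx hy
    have h1 : (1 - x) = (1 - y) := by
      apply hi (by simp only [mem_Ioi]; linarith) (by simp only [mem_Ioi]; linarith)
      have := congrArg Complex.re h
      simp only [(sm_neg (α := α) (β := β) hx).2, (sm_neg (α := α) (β := β) hy).2] at this
      show β * log (1 - x) + α * log (1 - x - 1) = β * log (1 - y) + α * log (1 - y - 1)
      rw [show 1 - x - 1 = -x by ring, show 1 - y - 1 = -y by ring]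
      linarith
    linarith
  · intro w hw
    obtain ⟨t, ht, he⟩ := hs (mem_univ w.re)
    simp only [mem_Ioi] at ht
    have ht' : 1 - t < 0 := by linarith
    refine ⟨1 - t, ht', Complex.ext ((sm_neg ht').2.trans ?_) ((sm_neg ht').1.trans hw.symm)⟩
    rw [← he, show -(1 - t) = t - 1 by ring, show 1 - (1 - t) = t by ring]
    ring

/-- the real part over `(0,1)`: increasing on `(0,x]`, decreasing on `[x,1)` -/
theorem mid_deriv {t : ℝ} (ht0 : 0 < t) (ht1 : t < 1) :
    HasDerivAt (fun t : ℝ => α * log t + β * log (1 - t)) ((α - (α + β) * t) / (t * (1 - t))) t := by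
  have h1 : HasDerivAt (fun t : ℝ => log t) t⁻¹ t := hasDerivAt_log ht0.ne'
  have h2 : HasDerivAt (fun t : ℝ => log (1 - t)) (-1 / (1 - t)) t :=
    ((hasDerivAt_id t).const_sub 1).log (by simp only [id]; linarith)
  have h3 := (h1.const_mul α).add (h2.const_mul β)
  have e : (α - (α + β) * t) / (t * (1 - t)) = α * t⁻¹ + β * (-1 / (1 - t)) := by
    have : (1 - t) ≠ 0 := by linarith
    have : t ≠ 0 := ht0.ne'
    field_simp
    ring
  rw [e]
  exact h3

theorem mid_left : StrictMonoOn (fun t : ℝ => α * log t + β * log (1 - t)) (Ioc 0 (α / (α + β))) := by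
  have hab : 0 < α + β := add_pos hα hβ
  have x1 : α / (α + β) < 1 := by rw [div_lt_one hab]; linarith
  apply strictMonoOn_of_deriv_pos (convex_Ioc _ _)
  · intro t ht
    exact (mid_deriv hα hβ ht.1 (lt_of_le_of_lt ht.2 x1)).continuousAt.continuousWithinAt
  · intro t ht
    rw [interior_Ioc] at ht
    have ht1 : t < 1 := lt_trans ht.2 x1
    rw [(mid_deriv hα hβ ht.1 ht1).deriv]
    have h2 := ht.2
    rw [lt_div_iff₀ hab] at h2
    apply div_pos (by linarith)
    exact mul_pos ht.1 (by linarith)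

theorem mid_right : StrictAntiOn (fun t : ℝ => α * log t + β * log (1 - t)) (Ico (α / (α + β)) 1) := by
  have hab : 0 < α + β := add_pos hα hβ
  have x0 : 0 < α / (α + β) := div_pos hα hab
  apply strictAntiOn_of_deriv_neg (convex_Ico _ _)
  · intro t ht
    exact (mid_deriv hα hβ (lt_of_lt_of_le x0 ht.1) ht.2).continuousAt.continuousWithinAt
  · intro t ht
    rw [interior_Ico] at ht
    have ht0 : 0 < t := lt_trans x0 ht.1
    rw [(mid_deriv hα hβ ht0 ht.2).deriv]
    have h2 := ht.1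
    rw [div_lt_iff₀ hab] at h2
    apply div_neg_of_neg_of_pos (by linarith)
    exact mul_pos ht0 (by linarith [ht.2])

theorem mid_tip : α * log (α / (α + β)) + β * log (1 - α / (α + β)) = tipM α β := by
  have hab : 0 < α + β := add_pos hα hβ
  have : 1 - α / (α + β) = β / (α + β) := by field_simp; ring
  rw [this]; rfl

/-- the tip -/
theorem sm_tip : sm α β ((α / (α + β) : ℝ) : ℂ) = ⟨tipM α β, β * π⟩ := by
  have hab : 0 < α + β := add_pos hα hβ
  have x0 : 0 < α / (α + β) := div_pos hα hab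
  have x1 : α / (α + β) < 1 := by rw [div_lt_one hab]; linarith
  obtain ⟨h1, h2⟩ := sm_mid (α := α) (β := β) x0 x1
  exact Complex.ext (h2.trans (mid_tip hα hβ)) h1

/-- `sm` maps `(0,x)` onto the slit -/
theorem sm_bijOn_left : BijOn (fun t : ℝ => sm α β t) (Ioo 0 (α / (α + β)))
    {w | w.im = β * π ∧ w.re < tipM α β} := by
  have hab : 0 < α + β := add_pos hα hβ
  have x0 : 0 < α / (α + β) := div_pos hα hab
  have x1 : α / (α + β) < 1 := by rw [div_lt_one hab]; linarith
  refine ⟨?_, ?_, ?_⟩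
  · intro t ht
    obtain ⟨h1, h2⟩ := sm_mid (α := α) (β := β) ht.1 (ht.2.trans x1)
    refine ⟨h1, ?_⟩
    show (sm α β t).re < _
    rw [h2, ← mid_tip hα hβ]
    exact mid_left hα hβ ⟨ht.1, ht.2.le⟩ ⟨x0, le_rfl⟩ ht.2
  · intro t ht t' ht' h
    have := congrArg Complex.re h
    simp only [(sm_mid (α := α) (β := β) ht.1 (ht.2.trans x1)).2,
      (sm_mid (α := α) (β := β) ht'.1 (ht'.2.trans x1)).2] at this
    exact (mid_left hα hβ).injOn ⟨ht.1, ht.2.le⟩ ⟨ht'.1, ht'.2.le⟩ this
  · rintro w ⟨hw, hr⟩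
    have hlim : Tendsto (fun t : ℝ => α * log t + β * log (1 - t)) (𝓝[>] 0) atBot := by
      have t1 : Tendsto (fun t : ℝ => β * log (1 - t)) (𝓝[>] 0) (𝓝 (β * log (1 - 0))) := by
        have hc : ContinuousAt (fun t : ℝ => log (1 - t)) 0 := ContinuousAt.log (by fun_prop) (by norm_num)
        exact (hc.tendsto.mono_left nhdsWithin_le_nhds).const_mul β
      have t2 : Tendsto (fun t : ℝ => α * log t) (𝓝[>] 0) atBot :=
        tendsto_log_nhdsGT_zero.const_mul_atBot hα
      refine (t1.add_atBot t2).congr fun t => by ring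
    have hm : ∀ᶠ t : ℝ in 𝓝[>] 0, t ∈ Ioo 0 (α / (α + β)) := Ioo_mem_nhdsGT x0
    obtain ⟨t₂, ht2, hr2⟩ := (hm.and (hlim.eventually_le_atBot w.re)).exists
    have hc : ContinuousOn (fun t : ℝ => α * log t + β * log (1 - t)) (Ioc 0 (α / (α + β))) := by
      intro t ht
      exact (mid_deriv hα hβ ht.1 (lt_of_le_of_lt ht.2 x1)).continuousAt.continuousWithinAt
    obtain ⟨t, ht, he⟩ := isPreconnected_Ioc.intermediate_value (a := t₂) (b := α / (α + β))
      ⟨ht2.1, ht2.2.le⟩ ⟨x0, le_rfl⟩ hc ⟨hr2, by rw [mid_tip hα hβ]; exact hr.le⟩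
    have hne : t ≠ α / (α + β) := by
      rintro rfl
      have h1 : tipM α β = w.re := (mid_tip hα hβ).symm.trans he
      exact hr.ne' h1
    have htl : t < α / (α + β) := lt_of_le_of_ne ht.2 hne
    exact ⟨t, ⟨ht.1, htl⟩, Complex.ext ((sm_mid ht.1 (htl.trans x1)).2.trans he)
      ((sm_mid ht.1 (htl.trans x1)).1.trans hw.symm)⟩

/-- `sm` maps `(x,1)` onto the slit -/
theorem sm_bijOn_right : BijOn (fun t : ℝ => sm α β t) (Ioo (α / (α + β)) 1)
    {w | w.im = β * π ∧ w.re < tipM α β} := by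
  have hab : 0 < α + β := add_pos hα hβ
  have x0 : 0 < α / (α + β) := div_pos hα hab
  have x1 : α / (α + β) < 1 := by rw [div_lt_one hab]; linarith
  refine ⟨?_, ?_, ?_⟩
  · intro t ht
    obtain ⟨h1, h2⟩ := sm_mid (α := α) (β := β) (x0.trans ht.1) ht.2
    refine ⟨h1, ?_⟩
    show (sm α β t).re < _
    rw [h2, ← mid_tip hα hβ]
    exact mid_right hα hβ ⟨le_rfl, x1⟩ ⟨ht.1.le, ht.2⟩ ht.1
  · intro t ht t' ht' h
    have := congrArg Complex.re h
    simp only [(sm_mid (α := α) (β := β) (x0.trans ht.1) ht.2).2,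
      (sm_mid (α := α) (β := β) (x0.trans ht'.1) ht'.2).2] at this
    exact (mid_right hα hβ).injOn ⟨ht.1.le, ht.2⟩ ⟨ht'.1.le, ht'.2⟩ this
  · rintro w ⟨hw, hr⟩
    have hlim : Tendsto (fun t : ℝ => α * log t + β * log (1 - t)) (𝓝[<] 1) atBot := by
      have t1 : Tendsto (fun t : ℝ => α * log t) (𝓝[<] 1) (𝓝 (α * log 1)) :=
        ((continuousAt_log one_ne_zero).tendsto.mono_left nhdsWithin_le_nhds).const_mul α
      have t2 : Tendsto (fun t : ℝ => β * log (1 - t)) (𝓝[<] 1) atBot := by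
        refine (tendsto_log_nhdsGT_zero.comp ?_).const_mul_atBot hβ
        rw [tendsto_nhdsWithin_iff]
        constructor
        · have : Tendsto (fun t : ℝ => 1 - t) (𝓝 1) (𝓝 (1 - 1)) :=
            (continuous_const.sub continuous_id).tendsto 1
          rw [sub_self] at this
          exact this.mono_left nhdsWithin_le_nhds
        · filter_upwards [self_mem_nhdsWithin] with t ht
          simpa using ht
      exact t1.add_atBot t2
    have hm : ∀ᶠ t : ℝ in 𝓝[<] 1, t ∈ Ioo (α / (α + β)) 1 := Ioo_mem_nhdsLT x1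
    obtain ⟨t₂, ht2, hr2⟩ := (hm.and (hlim.eventually_le_atBot w.re)).exists
    have hc : ContinuousOn (fun t : ℝ => α * log t + β * log (1 - t)) (Ico (α / (α + β)) 1) := by
      intro t ht
      exact (mid_deriv hα hβ (lt_of_lt_of_le x0 ht.1) ht.2).continuousAt.continuousWithinAt
    obtain ⟨t, ht, he⟩ := isPreconnected_Ico.intermediate_value (a := t₂) (b := α / (α + β))
      ⟨ht2.1.le, ht2.2⟩ ⟨le_rfl, x1⟩ hc ⟨hr2, by rw [mid_tip hα hβ]; exact hr.le⟩
    have hne : t ≠ α / (α + β) := by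
      rintro rfl
      have h1 : tipM α β = w.re := (mid_tip hα hβ).symm.trans he
      exact hr.ne' h1
    have htl : α / (α + β) < t := lt_of_le_of_ne ht.1 (Ne.symm hne)
    exact ⟨t, ⟨htl, ht.2⟩, Complex.ext ((sm_mid (x0.trans htl) ht.2).2.trans he)
      ((sm_mid (x0.trans htl) ht.2).1.trans hw.symm)⟩

end

/-! ## the sides of the slit -/

/-- near `t ∈ (0,1)` the sign of `Im sm - β π` on the half-plane is the sign of the derivative -/
theorem sm_side_aux {α β t : ℝ} (ht0 : 0 < t) (ht1 : t < 1) :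
    ∃ g : ℂ → ℂ, HasStrictDerivAt g (((α / t - β / (1 - t) : ℝ)) : ℂ) (t : ℂ) ∧
      (∀ᶠ z in 𝓝 (t : ℂ), 0 < z.im → (sm α β z).im = (g z).im + β * π) ∧
      (∀ᶠ z in 𝓝 (t : ℂ), (g (z.re : ℂ)).im = 0) := by
  refine ⟨fun z => (α : ℂ) * Complex.log z + (β : ℂ) * Complex.log (1 - z), ?_, ?_, ?_⟩
  · have s0 : (t : ℂ) ∈ Complex.slitPlane := Or.inl (by simpa using ht0)
    have s1 : (1 : ℂ) - t ∈ Complex.slitPlane := Or.inl (by simpa using ht1)
    have h1 := Complex.hasStrictDerivAt_log s0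
    have h2 : HasStrictDerivAt (fun z : ℂ => Complex.log (1 - z)) (-1 / (1 - (t:ℂ))) (t : ℂ) :=
      ((hasStrictDerivAt_id (t : ℂ)).const_sub 1).clog s1
    have e : ((α / t - β / (1 - t) : ℝ) : ℂ) = (α : ℂ) * (t : ℂ)⁻¹ + (β : ℂ) * (-1 / (1 - (t:ℂ))) := by
      push_cast
      ring
    rw [e]
    exact (h1.const_mul (α : ℂ)).add (h2.const_mul (β : ℂ))
  · filter_upwards with z hz
    have hz1 : 0 < (z - 1).im := by rw [im_sub_one]; exact hz
    have hne : (1 - z).im < 0 := by simp; exact hz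
    have harg : (1 - z).arg = (z - 1).arg - π := by
      have h3 : (z - 1) = -(1 - z) := by ring
      rw [h3, Complex.arg_neg_eq_arg_add_pi_of_im_neg hne]
      ring
    simp only [Complex.add_im, Complex.im_ofReal_mul, Complex.log_im, harg]
    rw [sm_im]
    ring
  · have h0 : ∀ᶠ z in 𝓝 (t : ℂ), 0 < z.re :=
      Complex.continuous_re.continuousAt.eventually_const_lt (by simpa using ht0)
    have h1 : ∀ᶠ z in 𝓝 (t : ℂ), z.re < 1 :=
      Complex.continuous_re.continuousAt.eventually_lt_const (by simpa using ht1)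
    filter_upwards [h0, h1] with z h0 h1
    have e : (1 : ℂ) - (z.re : ℂ) = ((1 - z.re : ℝ) : ℂ) := by push_cast; ring
    simp only [Complex.add_im, Complex.im_ofReal_mul, Complex.log_im, e,
      Complex.arg_ofReal_of_nonneg h0.le, Complex.arg_ofReal_of_nonneg (by linarith : 0 ≤ 1 - z.re)]
    ring

theorem sm_side {α β t : ℝ} (ht0 : 0 < t) (ht1 : t < 1) :
    (0 < α / t - β / (1 - t) → ∀ᶠ z in 𝓝[HH] (t : ℂ), β * π < (sm α β z).im) ∧
    (α / t - β / (1 - t) < 0 → ∀ᶠ z in 𝓝[HH] (t : ℂ), (sm α β z).im < β * π) := by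
  obtain ⟨g, hg, h1, h2⟩ := sm_side_aux (α := α) (β := β) ht0 ht1
  set c : ℝ := α / t - β / (1 - t) with hc
  have hpair : Tendsto (fun z : ℂ => (z, (z.re : ℂ))) (𝓝 (t : ℂ)) (𝓝 ((t : ℂ), (t : ℂ))) := by
    have : Continuous (fun z : ℂ => (z, (z.re : ℂ))) := by fun_prop
    have h := this.tendsto (t : ℂ)
    simpa using h
  have key : ∀ ε > 0, ∀ᶠ z in 𝓝 (t : ℂ), |(g z).im - c * z.im| ≤ ε * |z.im| := by
    intro ε hε
    have h3 := hg.isLittleO
    have h4 := (h3.comp_tendsto hpair).def hε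
    filter_upwards [h4, h2] with z h4 h2
    simp only [Function.comp] at h4
    have e1 : (z - (z.re : ℂ)) = (z.im : ℂ) * Complex.I := by
      apply Complex.ext <;> simp
    rw [e1] at h4
    have e2 : ‖(z.im : ℂ) * Complex.I‖ = |z.im| := by simp
    rw [e2] at h4
    refine le_trans ?_ h4
    refine le_trans (le_of_eq ?_) (Complex.abs_im_le_norm _)
    congr 1
    simp [h2]
    try ring
  constructor
  · intro hcp
    have h5 := key (c / 2) (by linarith)
    rw [eventually_nhdsWithin_iff]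
    filter_upwards [h5, h1] with z h5 h1 hz
    have hz' : 0 < z.im := hz
    rw [h1 hz']
    rw [abs_of_pos hz'] at h5
    have := (abs_le.mp h5).1
    nlinarith [mul_pos hcp hz']
  · intro hcn
    have h5 := key (-c / 2) (by linarith)
    rw [eventually_nhdsWithin_iff]
    filter_upwards [h5, h1] with z h5 h1 hz
    have hz' : 0 < z.im := hz
    rw [h1 hz']
    rw [abs_of_pos hz'] at h5
    have := (abs_le.mp h5).2
    nlinarith [mul_pos (neg_pos.mpr hcn) hz']

theorem sm_side_left {α β t : ℝ} (hα : 0 < α) (hβ : 0 < β) (ht : t ∈ Ioo 0 (α / (α + β))) :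
    ∀ᶠ z in 𝓝[HH] (t : ℂ), β * π < (sm α β z).im := by
  have hab : 0 < α + β := add_pos hα hβ
  have x1 : α / (α + β) < 1 := by rw [div_lt_one hab]; linarith
  have ht1 : t < 1 := ht.2.trans x1
  have h2 := ht.2
  rw [lt_div_iff₀ hab] at h2
  apply (sm_side ht.1 ht1).1
  have h3 : 0 < 1 - t := by linarith
  rw [div_sub_div _ _ ht.1.ne' h3.ne']
  apply div_pos
  · nlinarith
  · exact mul_pos ht.1 h3

theorem sm_side_right {α β t : ℝ} (hα : 0 < α) (hβ : 0 < β) (ht : t ∈ Ioo (α / (α + β)) 1) :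
    ∀ᶠ z in 𝓝[HH] (t : ℂ), (sm α β z).im < β * π := by
  have hab : 0 < α + β := add_pos hα hβ
  have x0 : 0 < α / (α + β) := div_pos hα hab
  have ht0 : 0 < t := x0.trans ht.1
  have h2 := ht.1
  rw [div_lt_iff₀ hab] at h2
  apply (sm_side ht0 ht.2).2
  have h3 : 0 < 1 - t := by linarith [ht.2]
  rw [div_sub_div _ _ ht0.ne' h3.ne']
  apply div_neg_of_neg_of_pos
  · nlinarith
  · exact mul_pos ht0 h3

end Pool.Agent.H863R4
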